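import Mathlib

namespace Pool.Agent.Results.MP_7e3249_co.BinaryTwoAbelianPowers

/-- number of occurrences (overlaps allowed) of the word x as a factor of the word w:
the number of suffixes of w that begin with x -/
def occ (x w : List Bool) : ℕ := w.tails.countP (fun t => x.isPrefixOf t)

/-- k-abelian equivalence -/
def KAb (k : ℕ) (u v : List Bool) : Prop :=
  ∀ x : List Bool, x ≠ [] → x.length ≤ k → occ x u = occ x v

/-- the nth power of a word -/
def pow (w : List Bool) (n : ℕ) : List Bool := (List.replicate n w).flatten

/-- the k-abelian class of v inside the words of the same length -/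
def cls (k : ℕ) (v : List Bool) : Set (List Bool) := {u | u.length = v.length ∧ KAb k u v}

/-- number of k-abelian classes of binary words of length N that contain an nth power -/
noncomputable def c (k n N : ℕ) : ℕ :=
  Set.ncard {C : Set (List Bool) | ∃ w : List Bool, (pow w n).length = N ∧ C = cls k (pow w n)}

/-- number of occurrences of the two letter word xy, by recursion -/
def e (x y : Bool) : List Bool → ℕ
  | [] => 0
  | [_] => 0
  | a :: b :: l => (if a = x ∧ b = y then 1 else 0) + e x y (b :: l)

theorem occ_nil (x : List Bool) (hx : x ≠ []) : occ x [] = 0 := by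
  cases x with
  | nil => exact absurd rfl hx
  | cons a l => simp [occ]

theorem occ_cons (x : List Bool) (a : Bool) (w : List Bool) :
    occ x (a :: w) = (if x.isPrefixOf (a :: w) then 1 else 0) + occ x w := by
  unfold occ
  rw [List.tails_cons, List.countP_cons]
  ring

theorem occ_one (x : Bool) (w : List Bool) : occ [x] w = w.count x := by
  induction w with
  | nil => simp [occ]
  | cons a w ih =>
    rw [occ_cons, ih, List.count_cons]
    by_cases h : a = x
    · subst h; simp [List.isPrefixOf]; ring
    · have h' : x ≠ a := fun hh => h hh.symm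
      simp [List.isPrefixOf, h, h']

theorem occ_two (x y : Bool) (w : List Bool) : occ [x, y] w = e x y w := by
  induction w with
  | nil => simp [occ, e]
  | cons a w ih =>
    rw [occ_cons, ih]
    cases w with
    | nil => simp [List.isPrefixOf, e]
    | cons b l =>
      rw [e]
      congr 1
      cases x <;> cases y <;> cases a <;> cases b <;> simp [List.isPrefixOf]

/-- first letter -/
def fst (w : List Bool) : Bool := w.headD false
/-- last letter -/
def lst (w : List Bool) : Bool := w.getLastD false

theorem e_append (x y : Bool) (u v : List Bool) (hu : u ≠ []) (hv : v ≠ []) :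
    e x y (u ++ v) = e x y u + e x y v + (if lst u = x ∧ fst v = y then 1 else 0) := by
  induction u with
  | nil => exact absurd rfl hu
  | cons a u ih =>
    cases u with
    | nil =>
      cases v with
      | nil => exact absurd rfl hv
      | cons b l => simp [e, lst, fst]; ring
    | cons a' u' =>
      have := ih (by simp)
      simp only [List.cons_append] at this ⊢
      rw [e, this, e]
      have h2 : lst (a :: a' :: u') = lst (a' :: u') := by
        simp [lst]
      rw [h2]; ring

theorem pow_zero (w : List Bool) : pow w 0 = [] := by simp [pow]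

theorem pow_succ (w : List Bool) (n : ℕ) : pow w (n + 1) = w ++ pow w n := by
  simp [pow, List.replicate_succ]

theorem pow_one (w : List Bool) : pow w 1 = w := by simp [pow]

theorem length_pow (w : List Bool) (n : ℕ) : (pow w n).length = n * w.length := by
  simp [pow]

theorem count_pow (x : Bool) (w : List Bool) (n : ℕ) : (pow w n).count x = n * w.count x := by
  induction n with
  | zero => simp [pow]
  | succ n ih => rw [pow_succ, List.count_append, ih]; ring

theorem pow_ne (w : List Bool) (hw : w ≠ []) (n : ℕ) : pow w (n + 1) ≠ [] := by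
  rw [pow_succ]; simp [hw]

theorem fst_append (u v : List Bool) (hu : u ≠ []) : fst (u ++ v) = fst u := by
  cases u with
  | nil => exact absurd rfl hu
  | cons a u => simp [fst]

theorem fst_pow (w : List Bool) (hw : w ≠ []) (n : ℕ) : fst (pow w (n + 1)) = fst w := by
  rw [pow_succ, fst_append _ _ hw]

theorem e_pow (x y : Bool) (w : List Bool) (hw : w ≠ []) (n : ℕ) :
    e x y (pow w (n + 1)) = (n + 1) * e x y w + n * (if lst w = x ∧ fst w = y then 1 else 0) := by
  induction n with
  | zero => simp [pow_one]
  | succ n ih =>
    rw [pow_succ, e_append _ _ _ _ hw (pow_ne w hw n), ih, fst_pow w hw]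
    ring

/-- numerical value of a letter -/
def b2 (a : Bool) : ℕ := if a then 1 else 0

theorem flow (w : List Bool) (hw : w ≠ []) :
    e true false w + b2 (lst w) = e false true w + b2 (fst w) ∧
    w.count true = e true true w + e false true w + b2 (fst w) ∧
    w.count false + b2 (fst w) = e false false w + e true false w + 1 ∧
    w.count true + w.count false = w.length := by
  induction w with
  | nil => exact absurd rfl hw
  | cons a w ih =>
    cases w with
    | nil => cases a <;> simp [e, lst, fst, b2]
    | cons b l =>
      obtain ⟨h1, h2, h3, h4⟩ := ih (by simp)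
      have hl : lst (a :: b :: l) = lst (b :: l) := by simp [lst]
      have hf : fst (a :: b :: l) = a := by simp [fst]
      have hf' : fst (b :: l) = b := by simp [fst]
      rw [hf'] at h1 h2 h3
      rw [hl, hf]
      simp only [e, List.count_cons (a := true) (b := a), List.count_cons (a := false) (b := a),
        List.length_cons (a := a)]
      cases a <;> cases b <;> simp [b2] at h1 h2 h3 h4 ⊢ <;> omega

/-- the possible invariants (first letter, last letter, number of ones, number of factors 01) -/
def P (M : ℕ) (a b : Bool) (t r : ℕ) : Prop :=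
  match a, b with
  | false, true => 1 ≤ r ∧ r ≤ t ∧ t + r ≤ M
  | true, false => r + 1 ≤ t ∧ t + r + 1 ≤ M
  | false, false => (r = 0 ∧ t = 0) ∨ (1 ≤ r ∧ r ≤ t ∧ t + r + 1 ≤ M)
  | true, true => (r = 0 ∧ t = M) ∨ (1 ≤ r ∧ r + 1 ≤ t ∧ t + r ≤ M)

theorem P_of (w : List Bool) (hw : w ≠ []) :
    P w.length (fst w) (lst w) (w.count true) (e false true w) := by
  induction w with
  | nil => exact absurd rfl hw
  | cons a w ih =>
    cases w with
    | nil => cases a <;> simp [e, lst, fst, P]
    | cons b l =>
      have h := ih (by simp)
      have hl : lst (a :: b :: l) = lst (b :: l) := by simp [lst]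
      have hf : fst (a :: b :: l) = a := by simp [fst]
      have hf' : fst (b :: l) = b := by simp [fst]
      have hlen : (a :: b :: l).length = (b :: l).length + 1 := by simp
      have hpos : 1 ≤ (b :: l).length := by simp
      have hc : (a :: b :: l).count true = (b :: l).count true + b2 a := by
        rw [List.count_cons]; cases a <;> simp [b2]
      have he : e false true (a :: b :: l)
          = (if a = false ∧ b = true then 1 else 0) + e false true (b :: l) := by rw [e]
      rw [hf'] at h
      rw [hl, hf, hlen, hc, he]
      generalize (b :: l).length = M at *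
      generalize (b :: l).count true = t at *
      generalize e false true (b :: l) = r at *
      generalize lst (b :: l) = z at *
      cases a <;> cases b <;> cases z <;> simp [P, b2] at h ⊢ <;> omega

theorem of_P (M : ℕ) : ∀ a b t r, P (M + 1) a b t r →
    ∃ w : List Bool, w.length = M + 1 ∧ fst w = a ∧ lst w = b ∧ w.count true = t ∧
      e false true w = r := by
  induction M with
  | zero =>
    intro a b t r h
    refine ⟨[a], by simp, by simp [fst], ?_, ?_, ?_⟩
    · cases a <;> cases b <;> simp [P, lst] at h ⊢ <;> omega
    · cases a <;> cases b <;> simp [P] at h ⊢ <;> omega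
    · cases a <;> cases b <;> simp [P, e] at h ⊢ <;> omega
  | succ M ih =>
    intro a b t r h
    have key : ∃ a' t' r', P (M + 1) a' b t' r' ∧ t = t' + b2 a ∧
        r = (if a = false ∧ a' = true then 1 else 0) + r' := by
      cases a <;> cases b <;> simp only [P] at h
      · rcases h with ⟨h1, h2⟩ | ⟨h1, h2, h3⟩
        · exact ⟨false, 0, 0, by simp [P], by simp [b2, h2], by simp [h1]⟩
        · by_cases h4 : t + r + 1 ≤ M + 1
          · exact ⟨false, t, r, by simp [P]; omega, by simp [b2], by simp⟩
          · exact ⟨true, t, r - 1, by simp [P]; omega, by simp [b2], by simp; omega⟩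
      · by_cases h4 : t + r ≤ M + 1
        · exact ⟨false, t, r, by simp [P]; omega, by simp [b2], by simp⟩
        · exact ⟨true, t, r - 1, by simp [P]; omega, by simp [b2], by simp; omega⟩
      · by_cases h4 : r + 1 ≤ t - 1
        · exact ⟨true, t - 1, r, by simp [P]; omega, by simp [b2]; omega, by simp⟩
        · exact ⟨false, t - 1, r, by simp [P]; omega, by simp [b2]; omega, by simp⟩
      · rcases h with ⟨h1, h2⟩ | ⟨h1, h2, h3⟩
        · exact ⟨true, M + 1, 0, by simp [P], by simp [b2]; omega, by simp [h1]⟩
        · by_cases h4 : r + 1 ≤ t - 1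
          · exact ⟨true, t - 1, r, by simp [P]; omega, by simp [b2]; omega, by simp⟩
          · exact ⟨false, t - 1, r, by simp [P]; omega, by simp [b2]; omega, by simp⟩
    obtain ⟨a', t', r', hP, ht, hr⟩ := key
    obtain ⟨w, hw, h1, h2, h3, h4⟩ := ih a' b t' r' hP
    cases w with
    | nil => simp at hw
    | cons b' l =>
      have hb : b' = a' := by simpa [fst] using h1
      subst hb
      refine ⟨a :: b' :: l, by simp at hw ⊢; omega, by simp [fst], ?_, ?_, ?_⟩
      · rw [← h2]; simp [lst]
      · rw [List.count_cons, h3, ht]; cases a <;> simp [b2]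
      · rw [e, h4, hr]


theorem arith (m A B d d' : ℕ) (hd : d ≤ 1) (hd' : d' ≤ 1)
    (h : (m + 2) * A + (m + 1) * d = (m + 2) * B + (m + 1) * d') : d = d' ∧ A = B := by
  have h1 : d = d' := by
    rcases Nat.lt_trichotomy d d' with hlt | heq | hgt
    · exfalso
      have e1 : d = 0 := by omega
      have e2 : d' = 1 := by omega
      subst e1; subst e2
      rcases Nat.lt_or_ge B A with h2 | h2
      · have := Nat.mul_le_mul_left (m + 2) (show B + 1 ≤ A from h2)
        rw [Nat.mul_add] at this
        omega
      · have := Nat.mul_le_mul_left (m + 2) h2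
        omega
    · exact heq
    · exfalso
      have e1 : d' = 0 := by omega
      have e2 : d = 1 := by omega
      subst e1; subst e2
      rcases Nat.lt_or_ge A B with h2 | h2
      · have := Nat.mul_le_mul_left (m + 2) (show A + 1 ≤ B from h2)
        rw [Nat.mul_add] at this
        omega
      · have := Nat.mul_le_mul_left (m + 2) h2
        omega
  subst h1
  refine ⟨rfl, ?_⟩
  have h2 : (m + 2) * A = (m + 2) * B := by omega
  exact Nat.eq_of_mul_eq_mul_left (by omega) h2

theorem KAb_iff (n : ℕ) (hn : 2 ≤ n) (w w' : List Bool) (hne : w ≠ []) (hne' : w' ≠ [])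
    (hl : w.length = w'.length) :
    KAb 2 (pow w n) (pow w' n) ↔ fst w = fst w' ∧ lst w = lst w' ∧
      w.count true = w'.count true ∧ e false true w = e false true w' := by
  obtain ⟨m, rfl⟩ : ∃ m, n = m + 2 := ⟨n - 2, by omega⟩
  obtain ⟨F1, F2, F3, F4⟩ := flow w hne
  obtain ⟨G1, G2, G3, G4⟩ := flow w' hne'
  constructor
  · intro h
    have hc : w.count true = w'.count true := by
      have := h [true] (by simp) (by simp)
      rw [occ_one, occ_one, count_pow, count_pow] at this
      exact Nat.eq_of_mul_eq_mul_left (by omega) this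
    have key : ∀ x y, (if lst w = x ∧ fst w = y then 1 else 0 : ℕ)
        = (if lst w' = x ∧ fst w' = y then 1 else 0) ∧ e x y w = e x y w' := by
      intro x y
      have := h [x, y] (by simp) (by simp)
      rw [occ_two, occ_two, e_pow _ _ _ hne (m + 1), e_pow _ _ _ hne' (m + 1)] at this
      exact arith m _ _ _ _ (by split_ifs <;> omega) (by split_ifs <;> omega) this
    have k1 := (key (lst w) (fst w)).1
    have k2 : lst w' = lst w ∧ fst w' = fst w := by
      by_contra hcon
      rw [if_neg hcon] at k1
      simp at k1
    exact ⟨k2.2.symm, k2.1.symm, hc, (key false true).2⟩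
  · rintro ⟨h1, h2, h3, h4⟩ x hx hxl
    rw [h1, h2] at F1
    rw [h1] at F2 F3
    have hcF : w.count false = w'.count false := by omega
    have hTF : e true false w = e true false w' := by omega
    have hTT : e true true w = e true true w' := by omega
    have hFF : e false false w = e false false w' := by omega
    match x, hx, hxl with
    | [], hx, _ => exact absurd rfl hx
    | [x], _, _ =>
      rw [occ_one, occ_one, count_pow, count_pow]
      cases x
      · rw [hcF]
      · rw [h3]
    | [x, y], _, _ =>
      rw [occ_two, occ_two, e_pow _ _ _ hne (m + 1), e_pow _ _ _ hne' (m + 1), h1, h2]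
      cases x <;> cases y
      · rw [hFF]
      · rw [h4]
      · rw [hTF]
      · rw [hTT]
    | _ :: _ :: _ :: _, _, hxl =>
      simp only [List.length_cons] at hxl
      omega

theorem cls_eq_iff (k : ℕ) (u v : List Bool) (h : u.length = v.length) :
    cls k u = cls k v ↔ KAb k u v := by
  constructor
  · intro hc
    have : u ∈ cls k u := ⟨rfl, fun x _ _ => rfl⟩
    rw [hc] at this
    exact this.2
  · intro hk
    ext z
    constructor
    · rintro ⟨h1, h2⟩
      exact ⟨h1.trans h, fun x a b => (h2 x a b).trans (hk x a b)⟩
    · rintro ⟨h1, h2⟩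
      exact ⟨h1.trans h.symm, fun x a b => (h2 x a b).trans (hk x a b).symm⟩

open Finset

/-- sum of min t (M - t) -/
def g (M : ℕ) : ℕ := ∑ t ∈ range (M + 1), min t (M - t)

theorem g_step (M : ℕ) : g (M + 2) = g M + (M + 1) := by
  unfold g
  rw [Finset.sum_range_succ, Finset.sum_range_succ']
  have h : ∀ s ∈ range (M + 1), min (s + 1) (M + 2 - (s + 1)) = min s (M - s) + 1 := by
    intro s hs
    have := Finset.mem_range.1 hs
    omega
  rw [Finset.sum_congr rfl h, Finset.sum_add_distrib]
  simp

theorem g_pair (M : ℕ) : 2 * (g (M + 1) + g M) = (M + 1) * M := by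
  induction M with
  | zero => decide
  | succ M ih =>
    have := g_step M
    rw [show M + 1 + 1 = M + 2 by rfl, this]
    nlinarith [ih]

theorem sum_FF (M : ℕ) : ∑ t ∈ range (M + 2), min t (M + 1 - 1 - t) = g M := by
  rw [Finset.sum_range_succ]
  unfold g
  have : min (M + 1) (M + 1 - 1 - (M + 1)) = 0 := by omega
  rw [this, Nat.add_zero]
  apply Finset.sum_congr rfl
  intro t _
  omega

theorem sum_TT (M : ℕ) : ∑ t ∈ range (M + 2), min (t - 1) (M + 1 - t) = g M := by
  rw [Finset.sum_range_succ']
  unfold g
  have : min (0 - 1) (M + 1 - 0) = 0 := by omega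
  rw [this, Nat.add_zero]
  apply Finset.sum_congr rfl
  intro t _
  omega

open Classical in
theorem card_r (M : ℕ) (t : ℕ) (ht : t ≤ M) :
    ((range (M + 1)).filter (fun r => P M false true t r)).card = min t (M - t) ∧
    ((range (M + 1)).filter (fun r => P M true false t r)).card = min t (M - t) ∧
    ((range (M + 1)).filter (fun r => P M false false t r)).card
      = (if t = 0 then 1 else 0) + min t (M - 1 - t) ∧
    ((range (M + 1)).filter (fun r => P M true true t r)).card
      = (if t = M then 1 else 0) + min (t - 1) (M - t) := by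
  refine ⟨?_, ?_, ?_, ?_⟩
  · have : (range (M + 1)).filter (fun r => P M false true t r) = Icc 1 (min t (M - t)) := by
      ext r
      rw [Finset.mem_filter, Finset.mem_range, Finset.mem_Icc]
      simp only [P]
      omega
    rw [this]; simp
  · have : (range (M + 1)).filter (fun r => P M true false t r) = range (min t (M - t)) := by
      ext r
      rw [Finset.mem_filter, Finset.mem_range, Finset.mem_range]
      simp only [P]
      omega
    rw [this]; simp
  · by_cases h0 : t = 0
    · have : (range (M + 1)).filter (fun r => P M false false t r) = {0} := by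
        ext r
        rw [Finset.mem_filter, Finset.mem_range, Finset.mem_singleton]
        simp only [P]
        omega
      rw [this, if_pos h0, Finset.card_singleton]
      omega
    · have : (range (M + 1)).filter (fun r => P M false false t r)
          = Icc 1 (min t (M - 1 - t)) := by
        ext r
        rw [Finset.mem_filter, Finset.mem_range, Finset.mem_Icc]
        simp only [P]
        omega
      rw [this, if_neg h0]; simp
  · by_cases h0 : t = M
    · have : (range (M + 1)).filter (fun r => P M true true t r) = {0} := by
        ext r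
        rw [Finset.mem_filter, Finset.mem_range, Finset.mem_singleton]
        simp only [P]
        omega
      rw [this, if_pos h0, Finset.card_singleton]
      omega
    · have : (range (M + 1)).filter (fun r => P M true true t r)
          = Icc 1 (min (t - 1) (M - t)) := by
        ext r
        rw [Finset.mem_filter, Finset.mem_range, Finset.mem_Icc]
        simp only [P]
        omega
      rw [this, if_neg h0]; simp

open Classical in
/-- the finite set of possible invariants -/
noncomputable def Q (M : ℕ) : Finset (Bool × Bool × ℕ × ℕ) :=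
  (univ ×ˢ univ ×ˢ range (M + 1) ×ˢ range (M + 1)).filter
    (fun q => P M q.1 q.2.1 q.2.2.1 q.2.2.2)

theorem mem_Q (M : ℕ) (q : Bool × Bool × ℕ × ℕ) : q ∈ Q M ↔
    (q.2.2.1 ≤ M ∧ q.2.2.2 ≤ M) ∧ P M q.1 q.2.1 q.2.2.1 q.2.2.2 := by
  classical
  unfold Q
  rw [Finset.mem_filter, Finset.mem_product, Finset.mem_product, Finset.mem_product,
    Finset.mem_range, Finset.mem_range, Nat.lt_succ_iff, Nat.lt_succ_iff]
  simp only [Finset.mem_univ, true_and]

theorem card_Q (M : ℕ) : (Q (M + 1)).card = (M + 1) * M + 2 := by
  classical
  unfold Q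
  rw [Finset.card_filter, Finset.sum_product]
  simp only [Finset.sum_product]
  simp only [← Finset.card_filter]
  rw [Fintype.sum_bool, Fintype.sum_bool, Fintype.sum_bool]
  rw [Finset.sum_congr rfl (fun t ht => (card_r (M + 1) t (by
      have := Finset.mem_range.1 ht; omega)).2.2.2),
    Finset.sum_congr rfl (fun t ht => (card_r (M + 1) t (by
      have := Finset.mem_range.1 ht; omega)).2.1),
    Finset.sum_congr rfl (fun t ht => (card_r (M + 1) t (by
      have := Finset.mem_range.1 ht; omega)).1),
    Finset.sum_congr rfl (fun t ht => (card_r (M + 1) t (by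
      have := Finset.mem_range.1 ht; omega)).2.2.1)]
  rw [Finset.sum_add_distrib, Finset.sum_add_distrib]
  have h1 : ∑ t ∈ range (M + 1 + 1), (if t = M + 1 then 1 else 0) = 1 := by
    rw [Finset.sum_ite_eq' (range (M + 1 + 1)) (M + 1) (fun _ => 1)]
    simp
  have h2 : ∑ t ∈ range (M + 1 + 1), (if t = 0 then 1 else 0) = 1 := by
    rw [Finset.sum_ite_eq' (range (M + 1 + 1)) 0 (fun _ => 1)]
    simp
  have h3 := sum_FF M
  have h4 := sum_TT M
  have h5 := g_pair M
  have h6 : ∑ t ∈ range (M + 1 + 1), min t (M + 1 - t) = g (M + 1) := rfl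
  rw [h1, h2, h6]
  change (1 + ∑ t ∈ range (M + 2), min (t - 1) (M + 1 - t) + g (M + 1)) +
    (g (M + 1) + (1 + ∑ t ∈ range (M + 2), min t (M + 1 - 1 - t))) = _
  rw [h3, h4]
  omega

theorem main (n : ℕ) (hn : 2 ≤ n) (K : ℕ) : c 2 n (n * (K + 1)) = (K + 1) * K + 2 := by
  have hW : ∀ q : Bool × Bool × ℕ × ℕ, ∃ w : List Bool,
      P (K + 1) q.1 q.2.1 q.2.2.1 q.2.2.2 → (w.length = K + 1 ∧ fst w = q.1 ∧ lst w = q.2.1 ∧
        w.count true = q.2.2.1 ∧ e false true w = q.2.2.2) := by
    intro q
    by_cases h : P (K + 1) q.1 q.2.1 q.2.2.1 q.2.2.2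
    · obtain ⟨w, hw⟩ := of_P K _ _ _ _ h
      exact ⟨w, fun _ => hw⟩
    · exact ⟨[], fun h' => absurd h' h⟩
  choose W hW using hW
  have hmem : ∀ q, q ∈ Q (K + 1) → P (K + 1) q.1 q.2.1 q.2.2.1 q.2.2.2 := by
    intro q hq
    exact ((mem_Q _ _).1 hq).2
  have hset : {C : Set (List Bool) | ∃ w : List Bool,
      (pow w n).length = n * (K + 1) ∧ C = cls 2 (pow w n)}
      = (fun q => cls 2 (pow (W q) n)) '' (↑(Q (K + 1)) : Set (Bool × Bool × ℕ × ℕ)) := by
    ext C
    constructor
    · rintro ⟨w, hw, rfl⟩
      rw [length_pow] at hw
      have hwl : w.length = K + 1 := Nat.eq_of_mul_eq_mul_left (by omega) hw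
      have hne : w ≠ [] := by rintro rfl; simp at hwl
      have hP := P_of w hne
      rw [hwl] at hP
      have hF := flow w hne
      obtain ⟨w1, w2, w3, w4, w5⟩ := hW (fst w, lst w, w.count true, e false true w) hP
      refine ⟨(fst w, lst w, w.count true, e false true w), ?_, ?_⟩
      · rw [Finset.mem_coe, mem_Q]
        refine ⟨?_, hP⟩
        constructor
        · change w.count true ≤ K + 1
          omega
        · change e false true w ≤ K + 1
          omega
      · have hne' : W (fst w, lst w, w.count true, e false true w) ≠ [] := by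
          intro h0
          rw [h0] at w1
          simp at w1
        apply (cls_eq_iff 2 _ _ _).2
        · exact (KAb_iff n hn _ _ hne' hne (w1.trans hwl.symm)).2 ⟨w2, w3, w4, w5⟩
        · rw [length_pow, length_pow, w1, hwl]
    · rintro ⟨q, hq, rfl⟩
      exact ⟨W q, by rw [length_pow, (hW q (hmem q hq)).1], rfl⟩
  unfold c
  rw [hset, Set.InjOn.ncard_image, Set.ncard_coe_finset, card_Q]
  intro q hq q' hq' h
  obtain ⟨w1, w2, w3, w4, w5⟩ := hW q (hmem q hq)
  obtain ⟨v1, v2, v3, v4, v5⟩ := hW q' (hmem q' hq')
  have hne : W q ≠ [] := by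
    intro h0
    rw [h0] at w1
    simp at w1
  have hne' : W q' ≠ [] := by
    intro h0
    rw [h0] at v1
    simp at v1
  have h1 : KAb 2 (pow (W q) n) (pow (W q') n) :=
    (cls_eq_iff 2 _ _ (by rw [length_pow, length_pow, w1, v1])).1 h
  obtain ⟨k1, k2, k3, k4⟩ := (KAb_iff n hn _ _ hne hne' (w1.trans v1.symm)).1 h1
  rw [w2, v2] at k1
  rw [w3, v3] at k2
  rw [w4, v4] at k3
  rw [w5, v5] at k4
  exact Prod.ext k1 (Prod.ext k2 (Prod.ext k3 k4))

/-- exact value for the binary alphabet and k = 2, for every n and every length N -/
theorem result (n : ℕ) (hn : 2 ≤ n) (N : ℕ) :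
    c 2 n N = if N = 0 then 1 else if n ∣ N then (N / n) * (N / n - 1) + 2 else 0 := by
  by_cases h0 : N = 0
  · rw [if_pos h0]
    subst h0
    have : {C : Set (List Bool) | ∃ w : List Bool, (pow w n).length = 0 ∧ C = cls 2 (pow w n)}
        = {cls 2 []} := by
      ext C
      constructor
      · rintro ⟨w, hw, rfl⟩
        rw [List.eq_nil_of_length_eq_zero hw]
        rfl
      · intro hC
        rw [Set.mem_singleton_iff] at hC
        have hp : pow [] n = [] := List.eq_nil_of_length_eq_zero (by rw [length_pow]; simp)
        exact ⟨[], by rw [length_pow]; simp, by rw [hp, hC]⟩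
    unfold c
    rw [this, Set.ncard_singleton]
  · rw [if_neg h0]
    by_cases hd : n ∣ N
    · rw [if_pos hd]
      obtain ⟨M, rfl⟩ := hd
      obtain ⟨K, rfl⟩ : ∃ K, M = K + 1 := by
        rcases M with _ | K
        · exact absurd (by simp) h0
        · exact ⟨K, rfl⟩
      rw [main n hn K, Nat.mul_div_cancel_left _ (by omega : 0 < n)]
      simp
    · rw [if_neg hd]
      have : {C : Set (List Bool) | ∃ w : List Bool, (pow w n).length = N ∧ C = cls 2 (pow w n)}
          = ∅ := by
        ext C
        constructor
        · rintro ⟨w, hw, _⟩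
          rw [length_pow] at hw
          exact absurd ⟨w.length, hw.symm⟩ hd
        · intro h
          exact absurd h (Set.notMem_empty C)
      unfold c
      rw [this, Set.ncard_empty]

end Pool.Agent.Results.MP_7e3249_co.BinaryTwoAbelianPowers
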