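import Mathlib

set_option linter.unusedSectionVars false

namespace Pool.Agent.Results.MP_7e3249_co.PowerClassReduction

variable {α : Type} [DecidableEq α]

/-- number of occurrences (overlaps allowed) of the word x as a factor of the word w:
the number of suffixes of w that begin with x -/
def occ (x w : List α) : ℕ := w.tails.countP (fun t => x.isPrefixOf t)

/-- k-abelian equivalence -/
def KAb (k : ℕ) (u v : List α) : Prop :=
  ∀ x : List α, x ≠ [] → x.length ≤ k → occ x u = occ x v

/-- the nth power of a word -/
def pow (w : List α) (n : ℕ) : List α := (List.replicate n w).flatten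

/-- the k-abelian class of v inside the words of the same length -/
def cls (k : ℕ) (v : List α) : Set (List α) := {u | u.length = v.length ∧ KAb k u v}

/-- number of k-abelian classes of words of length N over m letters that contain an nth power -/
noncomputable def c (m k n N : ℕ) : ℕ :=
  Set.ncard {C : Set (List (Fin m)) |
    ∃ w : List (Fin m), (pow w n).length = N ∧ C = cls k (pow w n)}

/-- number of all k-abelian classes of words of length N over m letters -/
noncomputable def classes (m k N : ℕ) : ℕ :=
  Set.ncard {C : Set (List (Fin m)) | ∃ w : List (Fin m), w.length = N ∧ C = cls k w}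

theorem occ_nil (x : List α) (hx : x ≠ []) : occ x [] = 0 := by
  cases x with
  | nil => exact absurd rfl hx
  | cons a l => simp [occ]

theorem occ_cons (x : List α) (a : α) (w : List α) :
    occ x (a :: w) = (if x.isPrefixOf (a :: w) then 1 else 0) + occ x w := by
  unfold occ
  rw [List.tails_cons, List.countP_cons]
  ring

theorem pow_succ (w : List α) (n : ℕ) : pow w (n + 1) = w ++ pow w n := by
  simp [pow, List.replicate_succ]

theorem pow_succ' (w : List α) (n : ℕ) : pow w (n + 1) = pow w n ++ w := by
  simp [pow, List.replicate_succ']

theorem pow_one (w : List α) : pow w 1 = w := by simp [pow]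

theorem length_pow (w : List α) (n : ℕ) : (pow w n).length = n * w.length := by
  simp [pow]

theorem pre_test (x l p : List α) (h : x.length ≤ l.length) :
    x.isPrefixOf (l ++ p) = x.isPrefixOf l := by
  rw [Bool.eq_iff_iff, List.isPrefixOf_iff_prefix, List.isPrefixOf_iff_prefix]
  constructor
  · intro h1
    exact List.prefix_of_prefix_length_le h1 (List.prefix_append l p) h
  · intro h1
    exact h1.trans (List.prefix_append l p)

theorem join_one (x s p : List α) (h : x.length ≤ s.length + 1) (u : List α) :
    occ x (u ++ (s ++ p)) + occ x s = occ x (u ++ s) + occ x (s ++ p) := by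
  induction u with
  | nil => simp only [List.nil_append]; ring
  | cons a u ih =>
    rw [List.cons_append, List.cons_append, occ_cons, occ_cons]
    have h1 : a :: (u ++ (s ++ p)) = (a :: (u ++ s)) ++ p := by simp
    have h2 : x.isPrefixOf (a :: (u ++ (s ++ p))) = x.isPrefixOf (a :: (u ++ s)) := by
      rw [h1]
      apply pre_test
      simp only [List.length_cons, List.length_append]
      omega
    rw [h2]
    omega

theorem join_two (x u s p v : List α) (hs : x.length ≤ s.length + 1)
    (hp : x.length ≤ p.length + 1) :
    occ x ((u ++ s) ++ (p ++ v)) + (occ x s + occ x p)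
      = occ x (u ++ s) + occ x (p ++ v) + occ x (s ++ p) := by
  have h1 := join_one x s (p ++ v) hs u
  have h2 := join_one x p v hp s
  rw [List.append_assoc]
  omega

/-- last j letters -/
def suf (j : ℕ) (w : List α) : List α := w.drop (w.length - j)
/-- first j letters -/
def pre (j : ℕ) (w : List α) : List α := w.take j

theorem occ_append (x u v : List α) (j : ℕ) (hx : x.length ≤ j + 1) (hu : j ≤ u.length)
    (hv : j ≤ v.length) :
    occ x (u ++ v) + (occ x (suf j u) + occ x (pre j v))
      = occ x u + occ x v + occ x (suf j u ++ pre j v) := by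
  have hsl : (suf j u).length = j := by simp only [suf, List.length_drop]; omega
  have hpl : (pre j v).length = j := by simp only [pre, List.length_take]; omega
  have h := join_two x (u.take (u.length - j)) (suf j u) (pre j v) (v.drop j)
    (by omega) (by omega)
  have e1 : u.take (u.length - j) ++ suf j u = u := by
    unfold suf; exact List.take_append_drop _ _
  have e2 : pre j v ++ v.drop j = v := by
    unfold pre; exact List.take_append_drop _ _
  rw [e1, e2] at h
  exact h

theorem pre_pow (w : List α) (j : ℕ) (hw : j ≤ w.length) (n : ℕ) :
    pre j (pow w (n + 1)) = pre j w := by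
  unfold pre
  rw [pow_succ, List.take_append_of_le_length hw]

theorem suf_pow (w : List α) (j : ℕ) (hw : j ≤ w.length) (n : ℕ) :
    suf j (pow w (n + 1)) = suf j w := by
  unfold suf
  rw [pow_succ', List.length_append, List.drop_append]
  have h1 : (pow w n).length + w.length - j - (pow w n).length = w.length - j := by omega
  rw [h1, List.drop_eq_nil_of_le (by omega), List.nil_append]

theorem occ_pow (x w : List α) (j : ℕ) (hx : x.length ≤ j + 1) (hw : j ≤ w.length) (n : ℕ) :
    occ x (pow w (n + 1)) + n * (occ x (suf j w) + occ x (pre j w))
      = (n + 1) * occ x w + n * occ x (suf j w ++ pre j w) := by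
  induction n with
  | zero => simp [pow_one]
  | succ n ih =>
    have hl : j ≤ (pow w (n + 1)).length := by
      rw [length_pow]; nlinarith
    have h1 := occ_append x w (pow w (n + 1)) j hx hw hl
    rw [pre_pow w j hw n] at h1
    rw [pow_succ w (n + 1)]
    linarith

theorem F1 [Fintype α] (x : List α) (hx : x ≠ []) (u : List α) :
    occ x u = (∑ a, occ (a :: x) u) + (if x.isPrefixOf u then 1 else 0) := by
  induction u with
  | nil =>
    rw [occ_nil x hx]
    cases x with
    | nil => exact absurd rfl hx
    | cons y x => simp [occ_nil]
  | cons b u ih =>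
    rw [occ_cons, ih]
    simp only [occ_cons]
    rw [Finset.sum_add_distrib]
    have h : ∑ a : α, (if (a :: x).isPrefixOf (b :: u) then 1 else 0)
        = if x.isPrefixOf u then 1 else 0 := by
      by_cases hp : x.isPrefixOf u = true
      · simp [List.isPrefixOf, hp]
      · simp [List.isPrefixOf, hp]
    rw [h]
    ring

theorem S [Fintype α] : ∀ (x w : List α), (if x.isPrefixOf w then 1 else 0 : ℕ)
    = (∑ a, if (x ++ [a]).isPrefixOf w then 1 else 0) + (if x = w then 1 else 0)
  | [], [] => by simp
  | [], b :: l => by simp [List.isPrefixOf]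
  | y :: x, [] => by simp
  | y :: x, b :: l => by
    have ih := S x l
    by_cases h : y = b
    · subst h; simpa [List.isPrefixOf] using ih
    · simp [List.isPrefixOf, h]

theorem F2 [Fintype α] (x : List α) (hx : x ≠ []) (u : List α) :
    occ x u = (∑ a, occ (x ++ [a]) u) + (if x <:+ u then 1 else 0) := by
  induction u with
  | nil => simp [occ_nil, hx]
  | cons b u ih =>
    rw [occ_cons, ih]
    simp only [occ_cons]
    rw [Finset.sum_add_distrib]
    have h : (if x <:+ b :: u then 1 else 0)
        = (if x = b :: u then 1 else 0) + (if x <:+ u then 1 else 0) := by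
      by_cases h1 : x = b :: u
      · have h2 : ¬ x <:+ u := by
          intro h3
          have := h3.length_le
          rw [h1] at this
          simp at this
        rw [if_pos h1, if_neg h2, if_pos (by rw [h1])]
      · by_cases h2 : x <:+ u
        · rw [if_neg h1, if_pos h2, if_pos (List.suffix_cons_iff.2 (Or.inr h2))]
        · rw [if_neg h1, if_neg h2, if_neg (by
            intro h3
            rcases List.suffix_cons_iff.1 h3 with h4 | h4
            · exact h1 h4
            · exact h2 h4)]
    rw [h, S x (b :: u)]
    ring

theorem ends [Fintype α] (j : ℕ) (u v : List α) (h : KAb (j + 1) u v) (hu : j ≤ u.length)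
    (hv : j ≤ v.length) : suf j u = suf j v ∧ pre j u = pre j v := by
  cases j with
  | zero => simp [suf, pre]
  | succ j =>
    have l1 : (suf (j + 1) u).length = j + 1 := by simp only [suf, List.length_drop]; omega
    have l2 : (suf (j + 1) v).length = j + 1 := by simp only [suf, List.length_drop]; omega
    have l3 : (pre (j + 1) u).length = j + 1 := by simp only [pre, List.length_take]; omega
    have l4 : (pre (j + 1) v).length = j + 1 := by simp only [pre, List.length_take]; omega
    constructor
    · have hne : suf (j + 1) u ≠ [] := by intro h0; rw [h0] at l1; simp at l1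
      have a1 := F2 _ hne u
      have a2 := F2 _ hne v
      rw [h _ hne (by omega), Finset.sum_congr rfl (fun a _ => h (suf (j + 1) u ++ [a]) (by simp)
        (by simp [l1])), if_pos (by unfold suf; exact List.drop_suffix _ _)] at a1
      have h3 : suf (j + 1) u <:+ v := by
        by_contra hcon
        rw [if_neg hcon] at a2
        omega
      have h4 : suf (j + 1) v <:+ v := by unfold suf; exact List.drop_suffix _ _
      have h5 := List.suffix_of_suffix_length_le h3 h4 (by omega)
      exact h5.eq_of_length (by omega)
    · have hne : pre (j + 1) u ≠ [] := by intro h0; rw [h0] at l3; simp at l3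
      have a1 := F1 _ hne u
      have a2 := F1 _ hne v
      rw [h _ hne (by omega), Finset.sum_congr rfl (fun a _ => h (a :: pre (j + 1) u) (by simp)
        (by simp [l3])), if_pos (by
          rw [List.isPrefixOf_iff_prefix]; unfold pre; exact List.take_prefix _ _)] at a1
      have h3 : pre (j + 1) u <+: v := by
        by_contra hcon
        rw [← List.isPrefixOf_iff_prefix] at hcon
        rw [if_neg hcon] at a2
        omega
      have h4 : pre (j + 1) v <+: v := by unfold pre; exact List.take_prefix _ _
      have h5 := List.prefix_of_prefix_length_le h3 h4 (by omega)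
      exact h5.eq_of_length (by omega)

theorem KAb_pow [Fintype α] (j n : ℕ) (w w' : List α) (hl : w.length = w'.length)
    (hj : j ≤ w.length) :
    KAb (j + 1) (pow w (n + 1)) (pow w' (n + 1)) ↔ KAb (j + 1) w w' := by
  have hj' : j ≤ w'.length := hl ▸ hj
  constructor
  · intro h
    obtain ⟨hs, hp⟩ := ends j _ _ h (by rw [length_pow]; nlinarith) (by
      rw [length_pow]; nlinarith)
    rw [suf_pow w j hj, suf_pow w' j hj'] at hs
    rw [pre_pow w j hj, pre_pow w' j hj'] at hp
    intro x hx hxl
    have a1 := occ_pow x w j hxl hj n
    have a2 := occ_pow x w' j hxl hj' n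
    rw [h x hx hxl, hs, hp] at a1
    have a3 : (n + 1) * occ x w = (n + 1) * occ x w' := by omega
    exact Nat.eq_of_mul_eq_mul_left (by omega) a3
  · intro h
    obtain ⟨hs, hp⟩ := ends j _ _ h hj hj'
    intro x hx hxl
    have a1 := occ_pow x w j hxl hj n
    have a2 := occ_pow x w' j hxl hj' n
    rw [h x hx hxl, hs, hp] at a1
    omega

theorem cls_eq_iff (k : ℕ) (u v : List α) (h : u.length = v.length) :
    cls k u = cls k v ↔ KAb k u v := by
  constructor
  · intro hc
    have : u ∈ cls k u := ⟨rfl, fun x _ _ => rfl⟩
    rw [hc] at this
    exact this.2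
  · intro hk
    ext z
    constructor
    · rintro ⟨h1, h2⟩
      exact ⟨h1.trans h, fun x a b => (h2 x a b).trans (hk x a b)⟩
    · rintro ⟨h1, h2⟩
      exact ⟨h1.trans h.symm, fun x a b => (h2 x a b).trans (hk x a b).symm⟩

/-- the power map is a bijection between all k-abelian classes of length M and the classes of
length nM that contain an nth power, as soon as M is at least k - 1 -/
theorem result (m k n M : ℕ) (hk : 1 ≤ k) (hn : 1 ≤ n) (hM : k - 1 ≤ M) :
    c m k n (n * M) = classes m k M := by
  obtain ⟨j, rfl⟩ : ∃ j, k = j + 1 := ⟨k - 1, by omega⟩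
  obtain ⟨n, rfl⟩ : ∃ n', n = n' + 1 := ⟨n - 1, by omega⟩
  have hM' : j ≤ M := by omega
  have hlen : ∀ w : List (Fin m), (pow w (n + 1)).length = (n + 1) * M → w.length = M := by
    intro w hw
    rw [length_pow] at hw
    exact Nat.eq_of_mul_eq_mul_left (by omega) hw
  have key : ∀ w w' : List (Fin m), w.length = M → w'.length = M →
      (cls (j + 1) (pow w (n + 1)) = cls (j + 1) (pow w' (n + 1)) ↔
        cls (j + 1) w = cls (j + 1) w') := by
    intro w w' h1 h2
    rw [cls_eq_iff _ _ _ (by rw [length_pow, length_pow, h1, h2]),
      cls_eq_iff _ _ _ (h1.trans h2.symm)]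
    exact KAb_pow j n w w' (h1.trans h2.symm) (by omega)
  unfold c classes
  refine Set.ncard_congr (fun C hC => cls (j + 1) (Classical.choose hC)) ?_ ?_ ?_
  · intro C hC
    exact ⟨_, hlen _ (Classical.choose_spec hC).1, rfl⟩
  · intro C C' hC hC' h
    have s1 := Classical.choose_spec hC
    have s2 := Classical.choose_spec hC'
    have := (key _ _ (hlen _ s1.1) (hlen _ s2.1)).2 h
    rw [s1.2, s2.2]
    exact this
  · intro D hD
    obtain ⟨w, hw, rfl⟩ := hD
    have hC : ∃ v : List (Fin m), (pow v (n + 1)).length = (n + 1) * M ∧
        cls (j + 1) (pow w (n + 1)) = cls (j + 1) (pow v (n + 1)) :=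
      ⟨w, by rw [length_pow, hw], rfl⟩
    refine ⟨cls (j + 1) (pow w (n + 1)), hC, ?_⟩
    have s1 := Classical.choose_spec hC
    exact ((key _ _ hw (hlen _ s1.1)).1 s1.2).symm

end Pool.Agent.Results.MP_7e3249_co.PowerClassReduction
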